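import Pool.Agent.H23.DM.TargetsG
import Pool.Agent.H23.DM.TargetsI
import Pool.Agent.H27.TM.TargetsG

/-!
# The trivial bound for the number of the frequencies
-/

set_option autoImplicit false

open NumberField NumberField.InfinitePlace

namespace Pool.Agent.H86.DM.TC

open Pool.Agent.H25.HK Pool.Agent.H23.LB Pool.Agent.H23.LC
open Pool.Agent.H29.TC (MC)
open Pool.Agent.H31.SW (PP)
open Pool.Agent.H27.TM (Cls Spc)
open Pool.Agent.H23.DM

theorem pf_TC (hTC : Pool.Agent.H27.TM.M_TC) (hNC : D_NC) : D_TC := by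
  classical
  intro n hn
  obtain ⟨C, hC, h⟩ := hTC n hn
  refine ⟨C, hC, ?_⟩
  intro K _ _ hK k ι J η c τ D hk hτ hη hc hS
  have hfib : ∀ η₀ : 𝓞 K ⧸ k → ℂ, ((J.filter fun j => η j = η₀).card : ℝ) ≤ C * (D * PP τ) := by
    intro η₀
    refine h K hK ι (J.filter fun j => η j = η₀) c τ D hτ
      (fun j hj => hc j (Finset.mem_filter.1 hj).1) ?_
    intro c₀
    have h1 := hS η₀ c₀
    rw [Finset.filter_filter]
    exact h1
  have hX : 0 ≤ C * (D * PP τ) := (Nat.cast_nonneg _).trans (hfib 0)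
  have h2 := hNC K k (J.image η) hk (by
    intro η₀ h0
    obtain ⟨j, hj, rfl⟩ := Finset.mem_image.1 h0
    exact hη j hj)
  have h3 : (J.card : ℝ) = ∑ η₀ ∈ J.image η, ((J.filter fun j => η j = η₀).card : ℝ) := by
    rw [Finset.card_eq_sum_card_image η J]
    push_cast
    rfl
  calc (J.card : ℝ) = ∑ η₀ ∈ J.image η, ((J.filter fun j => η j = η₀).card : ℝ) := h3
    _ ≤ ∑ η₀ ∈ J.image η, C * (D * PP τ) := Finset.sum_le_sum fun η₀ _ => hfib η₀
    _ = (J.image η).card * (C * (D * PP τ)) := by rw [Finset.sum_const, nsmul_eq_mul]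
    _ ≤ Nf K k * (C * (D * PP τ)) := mul_le_mul_of_nonneg_right h2 hX
    _ = C * (D * (Nf K k * PP τ)) := by ring

end Pool.Agent.H86.DM.TC
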